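import Pool.Agent.N912.PY.Stm

/-!
# Project PY, part D2 (helper669): automatic sequences at the numbers `X (1 + k^T + ...)`.
-/

set_option autoImplicit false

namespace Pool.Agent.N669.PY.D2

open Finset
open Pool.Agent.N912.PY

/-- the sequence `t ↦ g (n + k^l t)` -/
def sh {A : Type} (k n l : ℕ) (g : ℕ → A) : ℕ → A := fun t => g (n + k ^ l * t)

theorem bound {k n l n' l' : ℕ} (hn : n < k ^ l) (hn' : n' < k ^ l') :
    n + k ^ l * n' < k ^ (l + l') := by
  have h1 : k ^ l * (n' + 1) ≤ k ^ l * k ^ l' := Nat.mul_le_mul_left _ hn'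
  rw [pow_add]
  nlinarith

theorem sh_mem {A : Type} {k : ℕ} {a : ℕ → A} {n l : ℕ} (hn : n < k ^ l) {g : ℕ → A}
    (hg : g ∈ kerS k a) : sh k n l g ∈ kerS k a := by
  obtain ⟨i, j, hj, rfl⟩ := hg
  refine ⟨i + l, j + k ^ i * n, bound hj hn, ?_⟩
  funext t
  simp only [sh]
  congr 1
  rw [pow_add]
  ring

section
variable {A : Type} (k : ℕ) (a : ℕ → A)

open scoped Classical in
/-- the map `g ↦ (t ↦ g (n + k^l t))` on the kernel -/
noncomputable def Am (n l : ℕ) (g : {g : ℕ → A // g ∈ kerS k a}) : {g : ℕ → A // g ∈ kerS k a} :=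
  if h : n < k ^ l then ⟨sh k n l g.1, sh_mem h g.2⟩ else g

theorem Am_val {n l : ℕ} (h : n < k ^ l) (g : {g : ℕ → A // g ∈ kerS k a}) :
    (Am k a n l g).1 = sh k n l g.1 := by
  simp [Am, h]

theorem Am_comp {n l n' l' : ℕ} (h : n < k ^ l) (h' : n' < k ^ l') :
    Am k a n' l' ∘ Am k a n l = Am k a (n + k ^ l * n') (l + l') := by
  funext g
  apply Subtype.ext
  rw [Function.comp_apply, Am_val k a h', Am_val k a h, Am_val k a (bound h h')]
  funext t
  have e1 : n + k ^ l * (n' + k ^ l' * t) = n + k ^ l * n' + k ^ (l + l') * t := by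
    rw [pow_add]
    ring
  exact congrArg g.1 e1

theorem Am_zero : Am k a 0 0 = id := by
  funext g
  apply Subtype.ext
  rw [Am_val k a (by simp)]
  funext t
  simp [sh]

theorem Am_pow (hk : 2 ≤ k) (e : ℕ) : Am k a 0 e = (Am k a 0 1)^[e] := by
  have hk0 : 0 < k := by omega
  induction e with
  | zero => simpa using Am_zero k a
  | succ e ih =>
    rw [Function.iterate_succ', ← ih, Am_comp k a (by positivity) (by positivity)]
    simp

theorem Am_rep {X T : ℕ} (hX : X < k ^ T) (M : ℕ) :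
    X * rep k T M < k ^ (M * T) ∧ (Am k a X T)^[M] = Am k a (X * rep k T M) (M * T) := by
  induction M with
  | zero =>
    refine ⟨by simp [rep], ?_⟩
    have : (0 : ℕ) * T = 0 := by simp
    simp only [rep, Finset.range_zero, Finset.sum_empty, mul_zero, this, Function.iterate_zero]
    exact (Am_zero k a).symm
  | succ M ih =>
    obtain ⟨ih1, ih2⟩ := ih
    have e1 : X * rep k T (M + 1) = X * rep k T M + k ^ (M * T) * X := by
      simp only [rep, Finset.sum_range_succ]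
      ring
    have e2 : (M + 1) * T = M * T + T := by ring
    rw [e1, e2]
    refine ⟨bound ih1 hX, ?_⟩
    rw [Function.iterate_succ', ih2, Am_comp k a ih1 hX]

end

/-- powers of a self-map of a finite set are eventually periodic -/
theorem iter_period {S : Type} [Fintype S] (φ : S → S) {s : ℕ}
    (hs : Fintype.card S ≤ s) : φ^[s + (Fintype.card S).factorial] = φ^[s] := by
  classical
  funext t
  obtain ⟨i, j, hij, hjN, heq⟩ : ∃ i j : ℕ, i < j ∧ j ≤ Fintype.card S ∧ φ^[i] t = φ^[j] t := by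
    obtain ⟨i, hi, j, hj, hne, he⟩ := Finset.exists_ne_map_eq_of_card_lt_of_maps_to
      (s := Finset.range (Fintype.card S + 1)) (t := (Finset.univ : Finset S)) (f := fun i => φ^[i] t)
      (by simp) (fun _ _ => Finset.mem_univ _)
    rw [Finset.mem_range] at hi hj
    rcases lt_or_gt_of_ne hne with h | h
    · exact ⟨i, j, h, by omega, he⟩
    · exact ⟨j, i, h, by omega, he.symm⟩
  have hstep : ∀ r : ℕ, i ≤ r → φ^[r + (j - i)] t = φ^[r] t := by
    intro r hr
    have e1 : r + (j - i) = (r - i) + j := by omega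
    have e2 : r = (r - i) + i := by omega
    rw [e1, Function.iterate_add_apply, ← heq, ← Function.iterate_add_apply, ← e2]
  have hmul : ∀ m r : ℕ, i ≤ r → φ^[r + m * (j - i)] t = φ^[r] t := by
    intro m
    induction m with
    | zero => intro r _; simp
    | succ m ih =>
      intro r hr
      have e1 : r + (m + 1) * (j - i) = (r + m * (j - i)) + (j - i) := by ring
      rw [e1, hstep _ (by omega), ih r hr]
  obtain ⟨m, hm⟩ : (j - i) ∣ (Fintype.card S).factorial :=
    Nat.dvd_factorial (by omega) (by omega)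
  rw [hm, mul_comm (j - i) m]
  exact hmul m s (by omega)

theorem iter_mod_le {S : Type} [Fintype S] (φ : S → S) {s s' : ℕ}
    (hs : (Fintype.card S).factorial ≤ s) (hss : s ≤ s')
    (hmod : s ≡ s' [MOD (Fintype.card S).factorial]) : φ^[s] = φ^[s'] := by
  obtain ⟨m, hm⟩ := (Nat.modEq_iff_dvd' hss).1 hmod
  have hs' : s' = s + (Fintype.card S).factorial * m := by omega
  subst hs'
  clear hm hmod hss
  induction m with
  | zero => simp
  | succ m ih =>
    rw [ih]
    have e1 : s + (Fintype.card S).factorial * (m + 1) =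
        (s + (Fintype.card S).factorial * m) + (Fintype.card S).factorial := by ring
    rw [e1, iter_period]
    have := Nat.self_le_factorial (Fintype.card S)
    omega

theorem iter_mod {S : Type} [Fintype S] (φ : S → S) {s s' : ℕ}
    (hs : (Fintype.card S).factorial ≤ s) (hs' : (Fintype.card S).factorial ≤ s')
    (hmod : s ≡ s' [MOD (Fintype.card S).factorial]) : φ^[s] = φ^[s'] := by
  rcases le_total s s' with h | h
  · exact iter_mod_le φ hs h hmod
  · exact (iter_mod_le φ hs' h hmod.symm).symm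

theorem rank_left {S : Type} [Fintype S] [DecidableEq S] (f g : S → S) :
    (univ.image (f ∘ g)).card ≤ (univ.image f).card := by
  apply Finset.card_le_card
  intro x hx
  rw [Finset.mem_image] at hx ⊢
  obtain ⟨y, _, rfl⟩ := hx
  exact ⟨g y, Finset.mem_univ _, rfl⟩

theorem rank_right {S : Type} [Fintype S] [DecidableEq S] (f g : S → S) :
    (univ.image (f ∘ g)).card ≤ (univ.image g).card := by
  rw [← Finset.image_image]
  exact Finset.card_image_le

theorem d2 (h1 : S_D1) : S_D2 := by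
  classical
  intro k hk A a hfin
  have hk0 : 0 < k := by omega
  let inst : Fintype {g : ℕ → A // g ∈ kerS k a} := hfin.fintype
  obtain ⟨P, hP⟩ : ∃ P : ℕ, P = (Fintype.card {g : ℕ → A // g ∈ kerS k a}).factorial := ⟨_, rfl⟩
  set 𝓜 : Set ({g : ℕ → A // g ∈ kerS k a} → {g : ℕ → A // g ∈ kerS k a}) := {φ | ∃ n l : ℕ, n < k ^ l ∧ φ = Am k a n l} with h𝓜
  have hmem : ∀ n l : ℕ, n < k ^ l → Am k a n l ∈ 𝓜 := fun n l h => ⟨n, l, h, rfl⟩
  have hclosed : ∀ f ∈ 𝓜, ∀ g ∈ 𝓜, f ∘ g ∈ 𝓜 := by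
    rintro f ⟨n', l', hn', rfl⟩ g ⟨n, l, hn, rfl⟩
    rw [Am_comp k a hn hn']
    exact hmem _ _ (bound hn hn')
  obtain ⟨φ, ⟨n₁, l₁, hn₁, rfl⟩, hmin⟩ := Set.exists_min_image 𝓜
    (fun g => (univ.image g).card) (Set.toFinite _) ⟨_, hmem 0 0 (by simp)⟩
  have h1k : 1 < k ^ 1 := by
    rw [pow_one]
    omega
  have hn₀ : n₁ + k ^ l₁ < k ^ (l₁ + 1) := by
    have := bound hn₁ h1k
    simpa using this
  have hA₀ : Am k a (n₁ + k ^ l₁) (l₁ + 1) = Am k a 1 1 ∘ Am k a n₁ l₁ := by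
    rw [Am_comp k a hn₁ h1k]
    simp
  set n₀ := n₁ + k ^ l₁ with hn₀d
  set l₀ := l₁ + 1 with hl₀d
  have hmin₀ : ∀ g ∈ 𝓜, (univ.image (Am k a n₀ l₀)).card ≤ (univ.image g).card := by
    intro g hg
    rw [hA₀]
    exact (rank_right _ _).trans (hmin g hg)
  refine ⟨P, n₀, l₀, hP ▸ Nat.factorial_pos _, ?_, hn₀, ?_⟩
  · have : 0 < k ^ l₁ := by positivity
    omega
  intro M T hM hPM e d u e' d' u' he he' hd hd' hu hu' hT hT' hee hdd
  -- the decomposition
  have key : ∀ e d u : ℕ, l₀ ≤ d → u < k ^ (d - l₀) → e + d + l₀ ≤ T →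
      k ^ e * (n₀ + k ^ l₀ * u + k ^ d * n₀) < k ^ T ∧
      Am k a (k ^ e * (n₀ + k ^ l₀ * u + k ^ d * n₀)) T =
        (Am k a 0 (T - e - d - l₀) ∘ Am k a n₀ l₀) ∘ Am k a u (d - l₀) ∘
          (Am k a n₀ l₀ ∘ Am k a 0 e) := by
    intro e d u hd hu hT
    have z : ∀ e : ℕ, 0 < k ^ e := fun e => by positivity
    have b1 := bound (z e) hn₀
    have b2 := bound b1 hu
    have b3 := bound b2 hn₀
    have b4 := bound b3 (z (T - e - d - l₀))
    have c1 := Am_comp k a (z e) hn₀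
    have c2 := Am_comp k a b1 hu
    have c3 := Am_comp k a b2 hn₀
    have c4 := Am_comp k a b3 (z (T - e - d - l₀))
    have eX : 0 + k ^ e * n₀ + k ^ (e + l₀) * u + k ^ (e + l₀ + (d - l₀)) * n₀ +
        k ^ (e + l₀ + (d - l₀) + l₀) * 0 = k ^ e * (n₀ + k ^ l₀ * u + k ^ d * n₀) := by
      have e1 : e + l₀ + (d - l₀) = e + d := by omega
      rw [e1, pow_add, pow_add]
      ring
    have eT : e + l₀ + (d - l₀) + l₀ + (T - e - d - l₀) = T := by omega
    rw [eX, eT] at b4 c4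
    refine ⟨b4, ?_⟩
    rw [← c4, ← c3, ← c2, ← c1]
    rfl
  obtain ⟨hX, hAX⟩ := key e d u hd hu (by omega)
  obtain ⟨hX', hAX'⟩ := key e' d' u' hd' hu' (by omega)
  set X := k ^ e * (n₀ + k ^ l₀ * u + k ^ d * n₀) with hXd
  set X' := k ^ e' * (n₀ + k ^ l₀ * u' + k ^ d' * n₀) with hXd'
  have hE : Am k a 0 e = Am k a 0 e' := by
    rw [Am_pow k a hk, Am_pow k a hk e']
    exact iter_mod _ (hP ▸ he) (hP ▸ he') (hP ▸ hee)
  have hPad : Am k a 0 (T - e - d - l₀) = Am k a 0 (T - e' - d' - l₀) := by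
    rw [Am_pow k a hk, Am_pow k a hk (T - e' - d' - l₀)]
    have w1 : P ≤ T - e - d - l₀ := by omega
    have w2 : P ≤ T - e' - d' - l₀ := by omega
    apply iter_mod _ (hP ▸ w1) (hP ▸ w2)
    rw [← hP]
    have q1 : (T - e - d - l₀) + (e + d + l₀) = T := by omega
    have q2 : (T - e' - d' - l₀) + (e' + d' + l₀) = T := by omega
    have q3 : e + d + l₀ ≡ e' + d' + l₀ [MOD P] :=
      (hee.add hdd).add_right _
    have q4 : (T - e - d - l₀) + (e + d + l₀) ≡ (T - e' - d' - l₀) + (e' + d' + l₀)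
        [MOD P] := by
      rw [q1, q2]
    exact Nat.ModEq.add_right_cancel q3 q4
  rw [← hE, ← hPad] at hAX'
  have z : ∀ e : ℕ, 0 < k ^ e := fun e => by positivity
  have hU := hclosed _ (hmem 0 (T - e - d - l₀) (z _)) _ (hmem n₀ l₀ hn₀)
  have hV := hclosed _ (hmem n₀ l₀ hn₀) _ (hmem 0 e (z _))
  have hD := h1 _ 𝓜 hclosed _ _ _ _ hU hV (hmem u (d - l₀) hu) (hmem u' (d' - l₀) hu')
    (fun g hg => (rank_right _ _).trans (hmin₀ g hg))
    (fun g hg => (rank_left _ _).trans (hmin₀ g hg)) M hM (hP ▸ hPM)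
  rw [← hAX, ← hAX'] at hD
  obtain ⟨hB, hR⟩ := Am_rep k a hX M
  obtain ⟨hB', hR'⟩ := Am_rep k a hX' M
  rw [hR, hR'] at hD
  have hmem0 : a ∈ kerS k a := ⟨0, 0, by simp, by simp⟩
  have hD2 := congrArg (fun f => (f ⟨a, hmem0⟩).1 0) hD
  simp only [Am_val k a hB, Am_val k a hB', sh, mul_zero, add_zero] at hD2
  exact hD2

end Pool.Agent.N669.PY.D2
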